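import Pool.Agent.Helper87.NJ.St
import Pool.Agent.Helper14.MC.Cnt
import Pool.Agent.Helper38.NSL.Hf2

/-! ROW [GXL] of NSLJ: a full form has large exponents on half of the space. -/

set_option autoImplicit false

namespace Pool.Agent.Helper36.NJ

open Finset Filter Topology Matrix MvPolynomial Pool.Agent.Helper69.RK Pool.Agent.Helper31.EC Pool.Agent.Helper31.EC.Sp
open Pool.Agent.Helper40.EL Pool.Agent.Helper89.LX Pool.Agent.Helper84.MT Pool.Agent.Helper49.MD
open Pool.Agent.Helper3.LF hiding lin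
open Pool.Agent.Helper14.MC (vx vol_eq vx_UB cnt_vol)
open Pool.Agent.Helper38.NSL (gxF gxF_bd capF K0)
open Pool.Agent.Helper66.NJ (Kn1 zFD gG gG_eq)
open Pool.Agent.Helper87.NSL (FmG)
open Pool.Agent.Helper59.EV (sum_rest)
open Pool.Agent.Helper52.KP (pb_not)

noncomputable section

variable {S T : Sp} {N D : ℕ}

/-- sums over the space of an event -/
theorem sum_im_id (F : FSp) (p : FPj F F) (hp : p.π = id) (A : F.Ω → Prop) (f : F.Ω → ℝ) :
    ∑ ω, (FSp.im p A).μ ω * f ω = ∑ ω, (F.rest A).μ ω * f ω := by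
  have h : ∑ ω, (F.rest A).μ ω * f (p.π ω) = ∑ ω, (FSp.im p A).μ ω * f ω := sum_push (FSp.imp p A) f
  rw [← h, hp]
  rfl

theorem pb_im_id (F : FSp) (p : FPj F F) (hp : p.π = id) (A X : F.Ω → Prop) :
    (FSp.im p A).pb X = (F.rest A).pb X := by
  have h : (F.rest A).pb (fun ω => X (p.π ω)) = (FSp.im p A).pb X := pb_push (FSp.imp p A) X
  rw [← h, hp]
  rfl

theorem supp_im_id (F : FSp) (p : FPj F F) (A : F.Ω → Prop) (ω : F.Ω)
    (h : (FSp.im p A).μ ω ≠ 0) : F.μ ω ≠ 0 := FSp.im_supp p A ω h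

/-- THE COUNT ON AN EVENT -/
theorem cnt_event {Q : S.VV N} {V : ∀ k, Setoid (S.F k).Ω} {G : ∀ k, (S.F k).Ω → Matrix (Mon N D) (Mon N D) ℝ}
    (hD : 1 ≤ D) (hK : ∀ᶠ k in UF, Kn1 (V k) (G k)) (hF : FmG Q (fun k => zFD (V k) (G k)))
    (A : ∀ k, (S.F k).Ω → Prop) (hA : 0 < ul (S.pr A)) :
    H (up1 (Lab.ofZ (S := Sp.im (Pj.id S) A) V) ((Q.im (Pj.id S) A).dg 1)) ≤
      N - ul (fun k => ∑ ω, ((S.F k).rest (A k)).μ ω * gxF (S.F k) (Q.v k) (G k) ω) ∧
    UB (fun k => ∑ ω, ((S.F k).rest (A k)).μ ω * gxF (S.F k) (Q.v k) (G k) ω) := by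
  set y : ∀ k, FD ((Sp.im (Pj.id S) A).F k) (Mon N D) := fun k => zFD (F := (Sp.im (Pj.id S) A).F k) (V k) (G k) with hy
  have hid : ∀ k, ((Pj.id S).fp k).π = id := fun k => rfl
  have hK' : ∀ᶠ k in UF, Kn1 (F := (Sp.im (Pj.id S) A).F k) (V k) (G k) := by
    filter_upwards [hK] with k hk ω ω' h1 h2 h3 h4
    exact hk ω ω' (supp_im_id (S.F k) ((Pj.id S).fp k) (A k) ω h1)
      (supp_im_id (S.F k) ((Pj.id S).fp k) (A k) ω' h2) h3 h4
  set r := ul (S.pr A) with hr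
  have hr1 : r ≤ 1 := ul_pr_le_one A
  have hAdf : (gaq (Q.im (Pj.id S) A) D).Adf (fun i : Empty => i.elim) y := by
    intro η hη
    have hη' : 0 < η * r / 2 := by positivity
    have hle : η * r / 2 ≤ η := by nlinarith
    filter_upwards [hF.1, hF.2 _ hη', pr_half' hA, hK, hK'] with k a b c d d'
    have hn0 := (S.F k).pos
    have hpb : r / 2 ≤ (S.F k).pb (A k) := c
    have e1 : gG (F := S.F k) (V k) (G k) = G k := gG_eq d
    have e2 : gG (F := (Sp.im (Pj.id S) A).F k) (V k) (G k) = G k := gG_eq d'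
    have a' : ∀ ω, (S.F k).μ ω ≠ 0 → Cpd ((gaq Q D).cp k) (gG (F := S.F k) (V k) (G k) ω) := a
    have b' : (S.F k).pb (fun ω => ¬ (gaq Q D).φ k ω (gG (F := S.F k) (V k) (G k) ω) ≤
      2 ^ (η * r / 2 * (S.F k).n)) ≤ η * r / 2 := b
    rw [e1] at a' b'
    have hthr : (2 : ℝ) ^ (η * r / 2 * (S.F k).n) ≤ 2 ^ (η * (S.F k).n) :=
      Real.rpow_le_rpow_of_exponent_le (by norm_num) (mul_le_mul_of_nonneg_right hle hn0.le)
    have key : (FSp.im ((Pj.id S).fp k) (A k)).pb (fun ω => ¬ (gaq Q D).φ k ω (G k ω) ≤ 2 ^ (η * (S.F k).n)) ≤ η := by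
      have h0 : (FSp.im ((Pj.id S).fp k) (A k)).pb (fun ω => ¬ (gaq Q D).φ k ω (G k ω) ≤ 2 ^ (η * (S.F k).n)) =
          ((S.F k).rest (A k)).pb (fun ω => ¬ (gaq Q D).φ k ω (G k ω) ≤ 2 ^ (η * (S.F k).n)) :=
        pb_im_id (S.F k) ((Pj.id S).fp k) (hid k) (A k) (fun ω => ¬ (gaq Q D).φ k ω (G k ω) ≤ 2 ^ (η * (S.F k).n))
      rw [h0]
      have h1 := Pool.Agent.Helper89.LX.pb_rest_le (S.F k) (A k)
        (fun ω => ¬ (gaq Q D).φ k ω (G k ω) ≤ 2 ^ (η * (S.F k).n)) (r / 2) (by positivity) hpb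
      have h2 : (S.F k).pb (fun ω => ¬ (gaq Q D).φ k ω (G k ω) ≤ 2 ^ (η * (S.F k).n)) ≤
          (S.F k).pb (fun ω => ¬ (gaq Q D).φ k ω (G k ω) ≤ 2 ^ (η * r / 2 * (S.F k).n)) :=
        (S.F k).pb_mono fun ω _ h1 h2 => h1 (le_trans h2 hthr)
      refine h1.trans ?_
      rw [div_le_iff₀ (by positivity)]
      nlinarith
    refine ⟨fun i => i.elim, ?_, ?_, ?_⟩
    · show ∀ ω, ((Sp.im (Pj.id S) A).F k).μ ω ≠ 0 →
        Cpd ((gaq Q D).cp k) (gG (F := (Sp.im (Pj.id S) A).F k) (V k) (G k) ω) ∧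
          Cpd ((gaq Q D).cp k) (gG (F := (Sp.im (Pj.id S) A).F k) (V k) (G k) ω)
      intro ω hω
      rw [e2]
      exact ⟨a' ω (supp_im_id (S.F k) ((Pj.id S).fp k) (A k) ω hω),
        a' ω (supp_im_id (S.F k) ((Pj.id S).fp k) (A k) ω hω)⟩
    · show (FSp.im ((Pj.id S).fp k) (A k)).pb (fun ω => ¬ (gaq Q D).φ k ω
        (gG (F := (Sp.im (Pj.id S) A).F k) (V k) (G k) ω) ≤ 2 ^ (η * (S.F k).n)) ≤ η
      rw [e2]
      exact key
    · show (FSp.im ((Pj.id S).fp k) (A k)).pb (fun ω => ¬ (gaq Q D).φ k ω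
        (gG (F := (Sp.im (Pj.id S) A).F k) (V k) (G k) ω) ≤ 2 ^ (η * (S.F k).n)) ≤ η
      rw [e2]
      exact key
  have h1 := cnt_vol (Q.im (Pj.id S) A) hD y hAdf
  have e3 : ∀ᶠ k in UF, vx (Q.im (Pj.id S) A) y k =
      ∑ ω, ((S.F k).rest (A k)).μ ω * gxF (S.F k) (Q.v k) (G k) ω := by
    filter_upwards [hK'] with k hk
    have e2 : gG (F := (Sp.im (Pj.id S) A).F k) (V k) (G k) = G k := gG_eq hk
    have e4 : vx (Q.im (Pj.id S) A) y k = ∑ ω, (FSp.im ((Pj.id S).fp k) (A k)).μ ω *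
        gxF (S.F k) (Q.v k) (gG (F := (Sp.im (Pj.id S) A).F k) (V k) (G k)) ω := rfl
    rw [e4, e2]
    exact sum_im_id (S.F k) ((Pj.id S).fp k) (hid k) (A k) (gxF (S.F k) (Q.v k) (G k))
  have hUB := vx_UB hAdf
  refine ⟨?_, ?_⟩
  swap
  · obtain ⟨C, hC⟩ := hUB
    refine ⟨C, ?_⟩
    filter_upwards [hC, e3] with k a b
    rw [← b]
    exact a
  rw [vol_eq, ul_congr e3] at h1
  exact h1

/-- the gradients of constants vanish -/
theorem GQ_zero (r : ℝ) (A : Matrix (Mon N 0) (Mon N 0) ℝ) (p : Fin N → ℝ) : GQ r A p = 1 := by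
  have h1 : ∀ (i : Fin N) (q : Fin N → ℝ), (dd i q : Mon N 0 → ℝ) = 0 := by
    intro i q
    funext a
    unfold dd Mon.mon
    rw [pderiv_monomial]
    have h2 : a.ex i = 0 := by
      rw [Mon.ex_apply]
      have := (a.1 i).2
      omega
    rw [h2]
    simp
  have h3 : Jq r A p = 0 := by
    ext a b
    rw [Jq_apply, Matrix.zero_apply]
    refine Finset.sum_eq_zero fun j _ => ?_
    rw [h1, zero_dotProduct]
  unfold GQ
  rw [h3, add_zero, Matrix.det_one]

theorem pb_tr (F : FSp) : F.pb (fun _ => True) = 1 := by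
  have h0 : res F.μ (fun _ => True) = F.μ := funext fun ω => res_pos F.μ (fun _ => True) ω trivial
  unfold FSp.pb
  rw [h0]
  exact F.ms

theorem rest_true (F : FSp) : (F.rest fun _ => True).μ = F.μ := by
  have h0 : res F.μ (fun _ => True) = F.μ := funext fun ω => res_pos F.μ (fun _ => True) ω trivial
  show F.restμ (fun _ => True) = F.μ
  rw [F.restμ_eq _ (by rw [pb_tr]; exact one_ne_zero), pb_tr]
  funext ω
  show (1 : ℝ)⁻¹ * res F.μ (fun _ => True) ω = F.μ ω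
  rw [h0, inv_one, one_mul]

theorem sum_le_of (F : FSp) (f : F.Ω → ℝ) (c : ℝ) (h : ∀ ω, F.μ ω ≠ 0 → f ω ≤ c) : ∑ ω, F.μ ω * f ω ≤ c := by
  have h1 : ∑ ω, F.μ ω * f ω ≤ ∑ ω, F.μ ω * c := by
    apply Finset.sum_le_sum
    intro ω _
    by_cases h0 : F.μ ω = 0
    · rw [h0, zero_mul, zero_mul]
    · exact mul_le_mul_of_nonneg_left (h ω h0) (F.nn ω)
  have h2 : ∑ ω, F.μ ω = 1 := F.ms
  rw [← Finset.sum_mul, h2, one_mul] at h1
  exact h1

theorem gxF_zero (F : FSp) (q : F.Ω → Fin N → ℝ) (G : F.Ω → Matrix (Mon N 0) (Mon N 0) ℝ) (ω : F.Ω) :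
    gxF F q G ω = 0 := by
  unfold gxF
  rw [GQ_zero, Real.logb_one, zero_div]

/-- ROW [GXL] -/
theorem row_gxl : Pool.Agent.Helper87.NJ.ROW_GXL := by
  intro N D S Q V G a c hK hF hv hc ha η hη
  have hT : 0 < ul (S.pr fun _ _ => True) := by
    have h1 : ul (S.pr fun _ _ => True) = 1 := by
      rw [show (S.pr fun _ _ => True) = fun _ => (1 : ℝ) from funext fun k => pb_tr (S.F k)]
      exact ul_const 1
    rw [h1]
    exact one_pos
  have haN : a ≤ N := by
    refine (ha _ hT).trans ((H_up1_le _ _).trans ?_)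
    refine (((Q.im (Pj.id S) fun _ _ => True).H_dg_le (r := 1) zero_le_one)).trans ?_
    rw [mul_one]
  have hvx : vol Q D (fun k => zFD (V k) (G k)) = N - ul (fun k => ∑ ω, (S.F k).μ ω * gxF (S.F k) (Q.v k) (G k) ω) := by
    rw [vol_eq]
    have e : ul (vx Q (fun k => zFD (V k) (G k))) = ul (fun k => ∑ ω, (S.F k).μ ω * gxF (S.F k) (Q.v k) (G k) ω) := by
      apply ul_congr
      filter_upwards [hK] with k hk
      have e1 : gG (F := S.F k) (V k) (G k) = G k := gG_eq hk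
      have e2 : vx Q (fun k => zFD (V k) (G k)) k = ∑ ω, (S.F k).μ ω * gxF (S.F k) (Q.v k) (gG (F := S.F k) (V k) (G k)) ω := rfl
      rw [e2, e1]
    rw [e]
  rcases Nat.eq_zero_or_pos D with hD0 | hD
  · subst hD0
    have h0 : vol Q 0 (fun k => zFD (V k) (G k)) = N := by
      rw [hvx]
      have e : (fun k => ∑ ω, (S.F k).μ ω * gxF (S.F k) (Q.v k) (G k) ω) = fun _ => (0 : ℝ) := by
        funext k
        refine Finset.sum_eq_zero fun ω _ => ?_
        rw [gxF_zero, mul_zero]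
      rw [e, ul_const, sub_zero]
    have hcN : (N : ℝ) ≤ c := by rw [← h0]; exact hv.trans hc
    refine Eventually.of_forall fun k => ?_
    have h1 : (S.F k).pb (fun ω => ¬ N - (2 * c - a) - η ≤ gxF (S.F k) (Q.v k) (G k) ω) ≤ (S.F k).pb (fun _ => False) :=
      (S.F k).pb_mono fun ω _ h1 => h1 (by rw [gxF_zero]; linarith)
    have h2 : (S.F k).pb (fun _ => False) = 0 := by
      have := pb_not (S.F k) (fun _ => True)
      rw [pb_tr, sub_self] at this
      rw [← this]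
      congr 1
      funext ω
      simp
    linarith
  · by_contra hneg
    have hneg' := UF_not hneg
    obtain ⟨hcT, hUT⟩ := cnt_event hD hK hF (fun _ _ => True) hT
    have eT : (fun k => ∑ ω, ((S.F k).rest fun _ => True).μ ω * gxF (S.F k) (Q.v k) (G k) ω) =
        fun k => ∑ ω, (S.F k).μ ω * gxF (S.F k) (Q.v k) (G k) ω := by
      funext k
      exact Finset.sum_congr rfl fun ω _ => by rw [rest_true]
    rw [eT] at hcT hUT
    have hac : a ≤ c := by
      have h1 := ha _ hT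
      have h2 : a ≤ vol Q D (fun k => zFD (V k) (G k)) := by rw [hvx]; exact h1.trans hcT
      exact h2.trans (hv.trans hc)
    set β : ℝ := N - (2 * c - a) - η with hβ
    set A : ∀ k, (S.F k).Ω → Prop := fun k ω => β ≤ gxF (S.F k) (Q.v k) (G k) ω with hAdef
    have hbk : ∀ᶠ k in UF, (S.F k).pb (A k) < 1 / 2 := by
      filter_upwards [hneg'] with k hk
      have := pb_not (S.F k) (A k)
      have h1 : (1 : ℝ) / 2 < (S.F k).pb (fun ω => ¬ A k ω) := not_le.mp hk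
      linarith
    have hb : ∀ᶠ k in UF, ∑ ω, ((S.F k).rest fun ω => ¬ A k ω).μ ω * gxF (S.F k) (Q.v k) (G k) ω ≤ β := by
      filter_upwards [hbk] with k hk
      refine sum_le_of _ _ _ fun ω hω => ?_
      have h1 := (FSp.rest_supp (S.F k) (fun ω => ¬ A k ω) ω hω).2 (by rw [pb_not]; linarith)
      exact (not_le.mp h1).le
    have hsplit : ∀ k, ∑ ω, (S.F k).μ ω * gxF (S.F k) (Q.v k) (G k) ω =
        (S.F k).pb (A k) * (∑ ω, ((S.F k).rest (A k)).μ ω * gxF (S.F k) (Q.v k) (G k) ω) +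
        (1 - (S.F k).pb (A k)) * ∑ ω, ((S.F k).rest fun ω => ¬ A k ω).μ ω * gxF (S.F k) (Q.v k) (G k) ω :=
      fun k => sum_rest (S.F k) (A k) _
    have hfin : ul (fun k => ∑ ω, (S.F k).μ ω * gxF (S.F k) (Q.v k) (G k) ω) ≤ N - c - η / 4 := by
      refine ul_le_const hUT ?_
      by_cases hA : 0 < ul (S.pr A)
      · obtain ⟨h1, h2⟩ := cnt_event hD hK hF A hA
        have h3 : ul (fun k => ∑ ω, ((S.F k).rest (A k)).μ ω * gxF (S.F k) (Q.v k) (G k) ω) < N - a + η / 2 := by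
          have := (ha A hA).trans h1
          linarith
        filter_upwards [eventually_lt_of_ul_lt h2 h3, hbk, hb] with k b1 b2 b3
        rw [hsplit k]
        have hp0 := FSp.pb_nonneg (S.F k) (A k)
        nlinarith [mul_nonneg hp0 (sub_nonneg.mpr b1.le), mul_nonneg (by linarith : (0 : ℝ) ≤ 1 - (S.F k).pb (A k)) (sub_nonneg.mpr b3)]
      · have hz : ul (S.pr A) = 0 := le_antisymm (not_lt.mp hA) (const_le_ul (UB_pr A) (Eventually.of_forall fun k => FSp.pb_nonneg (S.F k) (A k)))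
        have hK0 := Pool.Agent.Helper38.NSL.K0_nonneg N D
        set ε := η / (4 * (K0 N D + |β| + 1)) with hε
        have hden : 0 < 4 * (K0 N D + |β| + 1) := by positivity
        have hε0 : 0 < ε := by positivity
        have hlt : ul (S.pr A) < ε := by rw [hz]; exact hε0
        filter_upwards [eventually_lt_of_ul_lt (UB_pr A) hlt, hbk, hb, gxF_bd (D := D) Q, hF.1, hK] with k b1 b2 b3 b4 b5 b6
        rw [hsplit k]
        have e1 : gG (F := S.F k) (V k) (G k) = G k := gG_eq b6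
        have b5' : ∀ ω, (S.F k).μ ω ≠ 0 → Cpd (capF (S.F k) D) (gG (F := S.F k) (V k) (G k) ω) := b5
        rw [e1] at b5'
        have h6 := b4 (G k) b5'
        have h7 : ∑ ω, ((S.F k).rest (A k)).μ ω * gxF (S.F k) (Q.v k) (G k) ω ≤ K0 N D :=
          sum_le_of _ _ _ fun ω hω => h6 ω (FSp.rest_supp (S.F k) (A k) ω hω).1
        have hp0 := FSp.pb_nonneg (S.F k) (A k)
        have b1' : (S.F k).pb (A k) < ε := b1
        have h8 : ε * (K0 N D + |β| + 1) = η / 4 := by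
          rw [hε]
          field_simp
        have h9 : (S.F k).pb (A k) * (K0 N D + |β| + 1) ≤ η / 4 := by
          rw [← h8]
          exact mul_le_mul_of_nonneg_right b1'.le (by positivity)
        have h10 : -|β| ≤ β := neg_abs_le β
        nlinarith [mul_nonneg hp0 (sub_nonneg.mpr h7), mul_nonneg (by linarith : (0 : ℝ) ≤ 1 - (S.F k).pb (A k)) (sub_nonneg.mpr b3),
          mul_nonneg hp0 (by linarith : (0 : ℝ) ≤ β + |β|)]
    have h11 := hv.trans hc
    rw [hvx] at h11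
    linarith

end

end Pool.Agent.Helper36.NJ
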